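import Pool.Agent.R979.CL.Zp

/-!
# The rank-zero criterion for Cohen-Lenstra limits of sparse `p`-adic matrices

For every prime `p` and every sequence of supports, the cokernel of the Haar-random matrix with
the given support converges to the Cohen-Lenstra distribution if and only if the probability that
the matrix is invertible modulo `p` converges to `∏ (1 - p ^ (-i))`.

The objects: `haarZp p` is the Haar probability measure of `ℤ_[p]`, `matLaw p n σ` is the law of
the `n × n` matrix `X` whose entries `X i j` are independent, Haar distributed when `i ∈ σ j` and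
equal to zero otherwise.
-/

set_option autoImplicit false

namespace Pool.Agent.Results.MP_78de02_pr.RankZeroCriterion

open MeasureTheory Filter Topology Pool.Agent.R979.CL

/-- The events in the statement are measurable. -/
theorem event_measurable {p : ℕ} [hp : Fact p.Prime] {n : ℕ} (G : Type) [AddCommGroup G] (k : ℕ) (hk : Nat.card G = p ^ k) :
    MeasurableSet {X : Fin n → Fin n → ℤ_[p] |
      Nonempty (((Fin n → ℤ_[p]) ⧸ LinearMap.range (Matrix.of X).mulVecLin) ≃+ G)} := by
  classical
  have hG : ∀ g : G, p ^ (k + 1 - 1) • g = 0 := by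
    intro g
    rw [Nat.add_sub_cancel, ← hk]
    exact card_nsmul_eq_zero'
  have hnt : Nontrivial (ZMod (p ^ (k + 1))) := by
    apply ZMod.nontrivial_iff.mpr
    exact (Nat.one_lt_pow (Nat.succ_ne_zero k) hp.out.one_lt).ne'
  have hm : ∀ a : ZMod (p ^ (k + 1)), MeasurableSet {x : ℤ_[p] | PadicInt.toZModPow (k + 1) x = a} :=
    fun a => (meas_fib _ (toZModPow_surj (k + 1)) (meas_toZModPow (k + 1)) a).1
  have h1 : {X : Fin n → Fin n → ℤ_[p] |
      Nonempty (((Fin n → ℤ_[p]) ⧸ LinearMap.range (Matrix.of X).mulVecLin) ≃+ G)} =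
      ⋃ M ∈ {M : Fin n → Fin n → ZMod (p ^ (k + 1)) | Nonempty (Cok (ZMod (p ^ (k + 1))) M ≃+ G)},
        {X : Fin n → Fin n → ℤ_[p] | ∀ i j, PadicInt.toZModPow (k + 1) (X i j) = M j i} := by
    ext X
    simp only [Set.mem_iUnion, Set.mem_ofPred_eq, exists_prop]
    have h2 := transfer_alg (N := k + 1) (Nat.succ_ne_zero k) X G hG
    constructor
    · intro h
      exact ⟨_, h2.1 h, fun i j => rfl⟩
    · rintro ⟨M, hM, hX⟩
      apply h2.2
      have : (fun j i => PadicInt.toZModPow (k + 1) (X i j)) = M := by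
        funext j i
        exact hX i j
      rwa [this]
  rw [h1]
  apply MeasurableSet.biUnion (Set.to_countable _)
  intro M _
  have h3 : {X : Fin n → Fin n → ℤ_[p] | ∀ i j, PadicInt.toZModPow (k + 1) (X i j) = M j i} =
      Set.pi Set.univ (fun i => Set.pi Set.univ
        (fun j => {x | PadicInt.toZModPow (k + 1) x = M j i})) := by
    ext X
    simp
  rw [h3]
  apply MeasurableSet.univ_pi
  intro i
  apply MeasurableSet.univ_pi
  intro j
  exact hm _

/-- The answer to Q1: convergence of the cokernel to the Cohen-Lenstra distribution is equivalent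
to convergence of the probability of invertibility modulo `p`. -/
theorem result (p : ℕ) [Fact p.Prime] (σ : ∀ n : ℕ, Fin n → Set (Fin n)) :
    (∀ (G : Type) [AddCommGroup G], (∃ k : ℕ, Nat.card G = p ^ k) →
      Tendsto (fun n : ℕ => (matLaw p n (σ n)).real {X : Fin n → Fin n → ℤ_[p] |
        Nonempty (((Fin n → ℤ_[p]) ⧸ LinearMap.range (Matrix.of X).mulVecLin) ≃+ G)}) atTop
        (𝓝 (1 / (Nat.card (AddAut G) : ℝ) * ∏' i : ℕ, (1 - (p : ℝ)⁻¹ ^ (i + 1))))) ↔
    Tendsto (fun n : ℕ => (matLaw p n (σ n)).real {X : Fin n → Fin n → ℤ_[p] |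
      ((Matrix.of X).map PadicInt.toZMod).det ≠ 0}) atTop
      (𝓝 (∏' i : ℕ, (1 - (p : ℝ)⁻¹ ^ (i + 1)))) := by
  constructor
  · intro h
    have h1 := h PUnit.{1} ⟨0, by simp⟩
    have h2 : 1 / (Nat.card (AddAut PUnit.{1}) : ℝ) * ∏' i : ℕ, (1 - (p : ℝ)⁻¹ ^ (i + 1)) =
        ∏' i : ℕ, (1 - (p : ℝ)⁻¹ ^ (i + 1)) := clMass_punit (p := p)
    rw [h2] at h1
    refine h1.congr fun n => ?_
    congr 1
    ext X
    exact coker_trivial X
  · intro h G _ hG
    obtain ⟨k, hk⟩ := hG
    have hfin : Finite G := by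
      apply Nat.finite_of_card_ne_zero
      rw [hk]
      exact pow_ne_zero _ (Fact.out : p.Prime).ne_zero
    have hG' : ∀ g : G, p ^ (k + 1 - 1) • g = 0 := by
      intro g
      rw [Nat.add_sub_cancel, ← hk]
      exact card_nsmul_eq_zero'
    have h0 : Tendsto (fun n => P0 p n (σ n)) atTop (𝓝 (cinf p)) := by
      refine h.congr fun n => ?_
      exact law_P0 (σ n)
    have h1 := PG_tendsto (p := p) (N := k + 1) (Nat.succ_ne_zero k) σ h0 G hG'
    refine h1.congr fun n => ?_
    exact (law_PG (N := k + 1) (Nat.succ_ne_zero k) (σ n) G hG').symm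

end Pool.Agent.Results.MP_78de02_pr.RankZeroCriterion
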